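import Pool.Agent.Y386.IR.Stm3

/-!
# The imperfection ratio, third round: part COL
-/

set_option autoImplicit false

namespace Pool.Agent.Y761.IR

open Pool.Agent.NPC Pool.Agent.H692R2 Pool.Agent.Y386.IR

theorem t_COL : S_WALK → S_COL := by
  intro hW k E ψ hk hb hA
  have hp0 : ∀ (e : ℕ × ℕ) (i : ℕ), pv (2 * k - 1) e i 0 = (0, e.1) := fun e i => by simp [pv]
  have hpL : ∀ (e : ℕ × ℕ) (i : ℕ), pv (2 * k - 1) e i (2 * k - 1) = (0, e.2) := fun e i => by
    have h : 2 * k - 1 ≠ 0 := by omega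
    simp [pv, h]
  classical
  refine ⟨fun u => if h : ((0, u) : Lab) ∈ sV (2 * k - 1) E then ⟨ψ (0, u), hb _ h⟩
    else ⟨0, by omega⟩, ?_⟩
  intro e he
  obtain ⟨i, hi⟩ := List.mem_iff_getElem?.1 he
  have h0 : ((0, e.1) : Lab) ∈ sV (2 * k - 1) E := by
    rw [← hp0 e i]
    exact mem_sV hi (Nat.zero_le _)
  have hL : ((0, e.2) : Lab) ∈ sV (2 * k - 1) E := by
    rw [← hpL e i]
    exact mem_sV hi le_rfl
  have key := (hW k hk).2 (fun j => ψ (pv (2 * k - 1) e i j)) (fun j hj => hb _ (mem_sV hi hj))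
    (fun j hj => hA _ _ (mem_sV hi hj.le) (mem_sV hi hj)
      (Or.inl (mem_sE.2 ⟨i, e, j, hi, hj, rfl, rfl⟩)))
  simp only [hp0, hpL] at key
  simp only [dif_pos h0, dif_pos hL]
  intro h
  exact key (congrArg Fin.val h)

end Pool.Agent.Y761.IR
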